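import Mathlib

namespace Pool.Agent.Results.MP_7fb2f0_pr.NotMonotone

open Finset SimpleGraph

open Classical in
/-- Edge sets of the connected spanning subgraphs of `G` with excess `k`. -/
noncomputable def Cs {V : Type} [Fintype V] (G : SimpleGraph V) (k : ℤ) :
    Finset (Finset (Sym2 V)) :=
  G.edgeFinset.powerset.filter
    (fun F => (fromEdgeSet (F : Set (Sym2 V))).Connected ∧ (F.card : ℤ) = Fintype.card V + k)

open Classical in
/-- `p_e(k)`. -/
noncomputable def pe {V : Type} [Fintype V] (G : SimpleGraph V) (e : Sym2 V) (k : ℤ) : ℚ :=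
  (((Cs G k).filter (fun F => e ∈ F)).card : ℚ) / (Cs G k).card

def eu (i : ℕ) : ℕ := if i = 15 then 0 else if i % 3 = 2 then i / 3 + 1 else i / 3
def ev (i : ℕ) : ℕ := if i = 15 then 5 else if i % 3 = 0 then i / 3 + 1 else i / 3 + 6

def fu (i : Fin 16) : Fin 11 := Fin.ofNat 11 (eu i)
def fv (i : Fin 16) : Fin 11 := Fin.ofNat 11 (ev i)

lemma fu_val : ∀ i, (fu i).val = eu i := by decide
lemma fv_val : ∀ i, (fv i).val = ev i := by decide
lemma fne : ∀ i, fu i ≠ fv i := by decide

def emb : Fin 16 ↪ Sym2 (Fin 11) := ⟨fun i => s(fu i, fv i), by decide +kernel⟩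

def G0 : SimpleGraph (Fin 11) := fromEdgeSet ((univ.map emb : Finset _) : Set (Sym2 (Fin 11)))

def mk (i : Fin 16) : ℕ := 2 ^ eu i ||| 2 ^ ev i

def force {α : Type} (R : ℕ) (f : ℕ → α) : α := match R with
  | 0 => f 0
  | n + 1 => f (Nat.succ n)

lemma force_eq {α : Type} (R : ℕ) (f : ℕ → α) : force R f = f R := by cases R <;> rfl

def stepR (R m : ℕ) : ℕ := bif Nat.beq (Nat.land R m) 0 then R else Nat.lor R m

def go : List ℕ → ℕ → ℕ
  | [], R => R
  | m :: l, R => force (stepR R m) (go l)

def closedR (l : List ℕ) (R : ℕ) : Bool :=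
  Nat.beq (Nat.land R 1) 1 && l.all fun m => Nat.beq (Nat.land R m) 0 || Nat.beq (Nat.land R m) m

def w (l : List ℕ) : ℕ := force (go l.reverse (go l (go l.reverse (go l 1)))) fun R =>
  bif Nat.beq (Nat.land R 2047) 2047 then 1 else bif closedR l R then 0 else 1000000

def cnt : List ℕ → ℕ → List ℕ → ℕ
  | _, 0, acc => w acc
  | [], _ + 1, _ => 0
  | m :: ms, r + 1, acc => cnt ms (r + 1) acc + cnt ms r (m :: acc)

abbrev HT (T : Finset (Fin 16)) : SimpleGraph (Fin 11) :=
  fromEdgeSet ((T.map emb : Finset _) : Set (Sym2 (Fin 11)))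

lemma mk_bit (i : Fin 16) (j : ℕ) : (mk i).testBit j = true ↔ j = eu i ∨ j = ev i := by
  rw [mk, Nat.testBit_or, Nat.testBit_two_pow, Nat.testBit_two_pow, Bool.or_eq_true,
    decide_eq_true_eq, decide_eq_true_eq, eq_comm, @eq_comm _ (ev i)]

lemma adj_iff (T : Finset (Fin 16)) (u v : Fin 11) :
    (fromEdgeSet ((T.map emb : Finset _) : Set (Sym2 (Fin 11)))).Adj u v ↔
      ∃ i ∈ T, (u = fu i ∧ v = fv i) ∨ (u = fv i ∧ v = fu i) := by
  rw [fromEdgeSet_adj, mem_coe, mem_map]
  constructor
  · rintro ⟨⟨i, hi, h⟩, -⟩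
    refine ⟨i, hi, ?_⟩
    rcases Sym2.eq_iff.mp h with ⟨h1, h2⟩ | ⟨h1, h2⟩
    · exact Or.inl ⟨h1.symm, h2.symm⟩
    · exact Or.inr ⟨h2.symm, h1.symm⟩
  · rintro ⟨i, hi, ⟨rfl, rfl⟩ | ⟨rfl, rfl⟩⟩
    · exact ⟨⟨i, hi, rfl⟩, fne i⟩
    · exact ⟨⟨i, hi, Sym2.eq_swap⟩, (fne i).symm⟩

lemma sound (T : Finset (Fin 16)) (l : List (Fin 16)) : ∀ R : ℕ, (∀ i ∈ l, i ∈ T) →
    (∀ v : Fin 11, R.testBit v → (HT T).Reachable 0 v) →
    ∀ v : Fin 11, (go (l.map mk) R).testBit v → (HT T).Reachable 0 v := by
  induction l with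
  | nil => exact fun R _ h => h
  | cons i l ih =>
    intro R hl h
    rw [List.map_cons, go, force_eq]
    refine ih _ (fun j hj => hl j (List.mem_cons_of_mem _ hj)) fun v hv => ?_
    have ha := (adj_iff T (fu i) (fv i)).mpr ⟨i, hl i List.mem_cons_self, Or.inl ⟨rfl, rfl⟩⟩
    unfold stepR at hv
    cases hc : Nat.beq (Nat.land R (mk i)) 0
    · rw [hc, cond_false] at hv
      have hb : (HT T).Reachable 0 (fu i) ∧ (HT T).Reachable 0 (fv i) := by
        have : R.testBit (fu i) = true ∨ R.testBit (fv i) = true := by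
          by_contra hn
          rw [not_or, fu_val, fv_val] at hn
          have : R &&& mk i = 0 := Nat.eq_of_testBit_eq fun j => by
            rw [Nat.testBit_and, Nat.zero_testBit, Bool.and_eq_false_imp]
            intro hj
            by_contra h2
            rcases (mk_bit i j).mp (by simpa using h2) with rfl | rfl
            · exact hn.1 hj
            · exact hn.2 hj
          exact Nat.ne_of_beq_eq_false hc this
        rcases this with hc | hc
        · exact ⟨h _ hc, (h _ hc).trans ha.reachable⟩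
        · exact ⟨(h _ hc).trans ha.symm.reachable, h _ hc⟩
      have hv' : (R ||| mk i).testBit v = true := hv
      rw [Nat.testBit_or, Bool.or_eq_true, mk_bit, ← fu_val, ← fv_val] at hv'
      rcases hv' with hv | hv | hv
      · exact h v hv
      · rw [Fin.ext hv]; exact hb.1
      · rw [Fin.ext hv]; exact hb.2
    · rw [hc, cond_true] at hv
      exact h v hv

open Classical in
noncomputable def ind (T : Finset (Fin 16)) : ℕ := if (HT T).Connected then 1 else 0

lemma w_spec (l : List (Fin 16)) (h : w (l.map mk) < 1000000) :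
    w (l.map mk) = ind l.toFinset := by
  unfold w at h ⊢
  rw [force_eq] at h ⊢
  set R := go (l.map mk).reverse (go (l.map mk) (go (l.map mk).reverse (go (l.map mk) 1))) with hR
  cases h1 : Nat.beq (Nat.land R 2047) 2047
  · rw [h1, cond_false] at h
    cases h2 : closedR (l.map mk) R
    · rw [h2] at h; simp at h
    rw [cond_false, cond_true, ind, if_neg]
    intro hc
    simp only [closedR, Bool.and_eq_true, List.all_eq_true, Bool.or_eq_true, Nat.beq_eq,
      List.mem_map, forall_exists_index, and_imp, forall_apply_eq_imp_iff₂] at h2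
    have e : ∀ i ∈ l, R.testBit (eu i) = R.testBit (ev i) := by
      intro i hi
      have m1 := (mk_bit i _).mpr (Or.inl rfl)
      have m2 := (mk_bit i _).mpr (Or.inr rfl)
      rcases h2.2 i hi with h3 | h3
      · have h4 : R &&& mk i = 0 := h3
        have a1 := congrArg (·.testBit (eu i)) h4
        have a2 := congrArg (·.testBit (ev i)) h4
        simp only [Nat.testBit_and, m1, m2, Bool.and_true, Nat.zero_testBit] at a1 a2
        rw [a1, a2]
      · have h4 : R &&& mk i = mk i := h3
        have a1 := congrArg (·.testBit (eu i)) h4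
        have a2 := congrArg (·.testBit (ev i)) h4
        simp only [Nat.testBit_and, m1, m2, Bool.and_true] at a1 a2
        rw [a1, a2]
    have key : ∀ (u v : Fin 11) (p : (HT l.toFinset).Walk u v), R.testBit u → R.testBit v := by
      intro u v p
      induction p with
      | nil => exact id
      | cons ha _ ih =>
        intro hu
        apply ih
        obtain ⟨i, hi, ⟨rfl, rfl⟩ | ⟨rfl, rfl⟩⟩ := (adj_iff _ _ _).mp ha
        · rw [fv_val, ← e i (List.mem_toFinset.mp hi), ← fu_val]; exact hu
        · rw [fu_val, e i (List.mem_toFinset.mp hi), ← fv_val]; exact hu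
    have h0 : R.testBit 0 = true := by
      have h4 : R &&& 1 = 1 := h2.1
      have a1 := congrArg (·.testBit 0) h4
      simpa [Nat.testBit_and] using a1
    have : R &&& (2 ^ 11 - 1) = 2 ^ 11 - 1 := Nat.eq_of_testBit_eq fun j => by
      rw [Nat.testBit_and, Nat.testBit_two_pow_sub_one]
      by_cases hj : j < 11
      · obtain ⟨p⟩ := hc.preconnected 0 ⟨j, hj⟩
        have := key _ _ p h0
        simpa [hj] using this
      · simp [hj]
    exact Nat.ne_of_beq_eq_false h1 this
  · rw [cond_true, ind, if_pos]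
    have hm : ∀ i ∈ l, i ∈ l.toFinset := fun i hi => List.mem_toFinset.mpr hi
    have k1 := sound l.toFinset l 1 hm (fun v hv => by
      have : v = 0 := by revert hv; revert v; decide
      rw [this])
    have k2 := sound l.toFinset l.reverse _ (fun i hi => hm i (List.mem_reverse.mp hi)) k1
    rw [List.map_reverse] at k2
    have k3 := sound l.toFinset l.reverse _ (fun i hi => hm i (List.mem_reverse.mp hi))
      (sound l.toFinset l _ hm k2)
    rw [List.map_reverse] at k3
    have h4 : R &&& (2 ^ 11 - 1) = 2 ^ 11 - 1 := Nat.eq_of_beq_eq_true h1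
    have all : ∀ v : Fin 11, R.testBit v = true := fun v => by
      have a1 := congrArg (·.testBit v) h4
      simpa only [Nat.testBit_and, Nat.testBit_two_pow_sub_one, v.2, decide_true,
        Bool.and_true] using a1
    exact ⟨fun u v => (k3 u (all u)).symm.trans (k3 v (all v))⟩

lemma cnt_spec : ∀ (ms : List (Fin 16)) (r : ℕ) (acc : List (Fin 16)), ms.Nodup →
    cnt (ms.map mk) r (acc.map mk) < 1000000 →
    cnt (ms.map mk) r (acc.map mk) = ∑ T ∈ powersetCard r ms.toFinset, ind (T ∪ acc.toFinset)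
  | ms, 0, acc, _, h => by
    have e : cnt (ms.map mk) 0 (acc.map mk) = w (acc.map mk) := by cases ms <;> rfl
    rw [e] at h ⊢
    rw [w_spec _ h]; simp
  | [], r + 1, _, _, _ => by
    rw [List.toFinset_nil, powersetCard_eq_empty.mpr (by simp), sum_empty]; rfl
  | m :: ms, r + 1, acc, hn, h => by
    have e : cnt ((m :: ms).map mk) (r + 1) (acc.map mk) = cnt (ms.map mk) (r + 1) (acc.map mk) +
      cnt (ms.map mk) r ((m :: acc).map mk) := rfl
    rw [e] at h ⊢
    obtain ⟨h1, h2⟩ := List.nodup_cons.mp hn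
    have h3 : m ∉ ms.toFinset := by simpa using h1
    rw [cnt_spec ms (r + 1) acc h2 (by omega), cnt_spec ms r (m :: acc) h2 (by omega),
      List.toFinset_cons, List.toFinset_cons, powersetCard_succ_insert h3, sum_union, sum_image]
    · congr 1
      exact sum_congr rfl fun T _ => by rw [union_insert, insert_union]
    · intro A hA B hB hAB
      have a1 : m ∉ A := fun h => h3 ((mem_powersetCard.mp hA).1 h)
      have a2 : m ∉ B := fun h => h3 ((mem_powersetCard.mp hB).1 h)
      rw [← erase_insert a1, ← erase_insert a2, hAB]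
    · refine disjoint_left.mpr fun A hA hB => ?_
      obtain ⟨B, -, rfl⟩ := mem_image.mp hB
      exact h3 ((mem_powersetCard.mp hA).1 (mem_insert_self _ _))

lemma edgeF : G0.edgeSet = ((univ.map emb : Finset _) : Set (Sym2 (Fin 11))) := by
  rw [G0, edgeSet_fromEdgeSet]
  ext e
  simp only [Set.mem_sdiff, and_iff_left_iff_imp, mem_coe, mem_map]
  rintro ⟨i, -, rfl⟩
  simpa [emb] using fne i

open Classical in
lemma Cs_eq (m : ℕ) (k : ℤ) (hk : (m : ℤ) = 11 + k) :
    Cs G0 k = ((powersetCard m (univ : Finset (Fin 16))).filter fun T => (HT T).Connected).map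
      (mapEmbedding emb).toEmbedding := by
  ext F
  simp only [Cs, mem_filter, mem_powerset, mem_map, mem_powersetCard, Fintype.card_fin,
    RelEmbedding.coe_toEmbedding, mapEmbedding_apply]
  constructor
  · rintro ⟨h1, h2, h3⟩
    have h4 : F ⊆ univ.map emb := fun e he => by
      have := mem_edgeFinset.mp (h1 he)
      rwa [edgeF] at this
    obtain ⟨T, -, rfl⟩ := subset_map_iff.mp h4
    have hT : T.card = m := by
      rw [card_map] at h3
      omega
    exact ⟨T, ⟨⟨subset_univ _, hT⟩, h2⟩, rfl⟩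
  · rintro ⟨T, ⟨⟨-, hT⟩, h⟩, rfl⟩
    refine ⟨fun e he => ?_, h, by rw [card_map, hT]; omega⟩
    rw [mem_edgeFinset, edgeF]
    exact map_subset_map.mpr (subset_univ T) he

def L15 : List (Fin 16) := [0, 1, 2, 3, 4, 5, 6, 7, 8, 9, 10, 11, 12, 13, 14]
def M15 : List ℕ := [3, 65, 66, 6, 130, 132, 12, 260, 264, 24, 520, 528, 48, 1040, 1056]

lemma hM : L15.map mk = M15 := by decide +kernel
lemma hU : (univ : Finset (Fin 16)) = insert 15 L15.toFinset := by decide +kernel
lemma h15 : (15 : Fin 16) ∉ L15.toFinset := by decide +kernel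

lemma pe_eq (r : ℕ) (k : ℤ) (hk : ((r + 1 : ℕ) : ℤ) = 11 + k) (a b : ℕ)
    (ha : cnt M15 (r + 1) [] = a) (hb : cnt M15 r [33] = b) (ha' : a < 1000000)
    (hb' : b < 1000000) : pe G0 (emb 15) k = (b : ℚ) / ((a + b : ℕ) : ℚ) := by
  classical
  have e1 := cnt_spec L15 (r + 1) [] (by decide) (by rw [hM]; exact ha ▸ ha')
  have e2 := cnt_spec L15 r [15] (by decide) (by rw [hM]; exact hb ▸ hb')
  rw [hM] at e1 e2
  have e1' : a = ∑ T ∈ powersetCard (r + 1) L15.toFinset, ind T := by
    rw [← ha]; simpa using e1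
  have e2' : b = ∑ T ∈ powersetCard r L15.toFinset, ind (insert 15 T) := by
    rw [← hb]
    refine e2.trans (sum_congr rfl fun T _ => ?_)
    congr 1
    ext x; simp [or_comm]
  have inj : Set.InjOn (insert (15 : Fin 16)) (powersetCard r L15.toFinset :
      Set (Finset (Fin 16))) := by
    intro A hA B hB hAB
    have a1 : (15 : Fin 16) ∉ A := fun h => h15 ((mem_powersetCard.mp hA).1 h)
    have a2 : (15 : Fin 16) ∉ B := fun h => h15 ((mem_powersetCard.mp hB).1 h)
    rw [← erase_insert a1, ← erase_insert a2, hAB]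
  have dis : Disjoint (powersetCard (r + 1) L15.toFinset)
      ((powersetCard r L15.toFinset).image (insert 15)) := by
    refine disjoint_left.mpr fun A hA hB => ?_
    obtain ⟨B, -, rfl⟩ := mem_image.mp hB
    exact h15 ((mem_powersetCard.mp hA).1 (mem_insert_self _ _))
  have hpe : pe G0 (emb 15) k =
      (((Cs G0 k).filter (fun F => emb 15 ∈ F)).card : ℚ) / (Cs G0 k).card := by
    unfold pe; congr!
  rw [hpe, Cs_eq (r + 1) k hk, filter_map, card_map, card_map, filter_filter, card_filter, card_filter,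
    hU, powersetCard_succ_insert h15, sum_union dis, sum_union dis, sum_image inj, sum_image inj]
  congr 2
  · rw [sum_eq_zero, zero_add, e2']
    · exact sum_congr rfl fun T _ => by simp [ind, mapEmbedding_apply]
    · intro T hT
      have : (15 : Fin 16) ∉ T := fun h => h15 ((mem_powersetCard.mp hT).1 h)
      simp [mapEmbedding_apply, this]
  · rw [e1', e2']; rfl

lemma c1 : cnt M15 10 [] = 243 := by decide +kernel
lemma c2 : cnt M15 9 [33] = 810 := by decide +kernel
lemma c3 : cnt M15 11 [] = 405 := by decide +kernel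
lemma c4 : cnt M15 10 [33] = 1323 := by decide +kernel

theorem result : ∃ (V : Type) (_ : Fintype V) (G : SimpleGraph V) (e : Sym2 V) (k : ℤ),
    G.Connected ∧ e ∈ G.edgeSet ∧ -1 ≤ k ∧ k < (G.edgeSet.ncard : ℤ) - Fintype.card V ∧
    pe G e (k + 1) < pe G e k := by
  have hc : G0.Connected := by
    have h1 : w ((15 :: L15).map mk) = 1 := by decide +kernel
    have := w_spec (15 :: L15) (by rw [h1]; norm_num)
    rw [h1, List.toFinset_cons, ← hU, ind] at this
    by_contra h
    rw [if_neg (show ¬ (HT univ).Connected from h)] at this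
    exact one_ne_zero this
  refine ⟨Fin 11, inferInstance, G0, emb 15, -1, hc, by rw [edgeF]; simp, le_rfl,
    by rw [edgeF, Set.ncard_coe_finset, card_map]; simp, ?_⟩
  rw [pe_eq 10 (-1 + 1) (by norm_num) _ _ c3 c4 (by norm_num) (by norm_num),
    pe_eq 9 (-1) (by norm_num) _ _ c1 c2 (by norm_num) (by norm_num)]
  norm_num

end Pool.Agent.Results.MP_7fb2f0_pr.NotMonotone
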